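import Pool.Agent.R347.SX.Low
import Pool.Agent.R347.GS.Struct

/-!
# Lower bounds for values of polynomials at numbers which are nowhere well approximable
-/

set_option autoImplicit false

namespace Pool.Agent.R347.SX

open Finset Complex
open Pool.Agent.R347.LW
open Pool.Agent.R347.GS (NE NE.const NE.mul NE.add NE.pow)

/-- the number is not approximable for any sequence -/
def Far (t : ℂ) : Prop := ∀ q : ℕ → ℕ, (∀ k, 2 ≤ q k) → ¬ Appr q t

theorem far_low {t : ℂ} (ht : Far t) {n : ℕ} (P : Fin n → Polynomial ℤ)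
    (hP : ∀ c : Fin n → ℤ, ∑ i, Polynomial.C (c i) * P i = 0 → c = 0) (ξ : ℂ) (hξ : ξ ≠ 0)
    {q : ℕ → ℕ} (hq : ∀ k, 2 ≤ q k) : Low q (fun i => ξ * Polynomial.aeval t (P i)) := by
  classical
  by_contra hcon
  unfold Low at hcon
  push Not at hcon
  obtain ⟨h, hh⟩ := hcon
  choose k c hc0 hcB hcs using hh
  set q' : ℕ → ℕ := fun κ => q (k κ) with hq'd
  have hq' : ∀ κ, 2 ≤ q' κ := fun κ => hq _
  apply ht q' hq'
  set F : ℕ → Polynomial ℤ := fun κ => ∑ i, Polynomial.C (c κ i) * P i with hF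
  have hF0 : ∀ κ, F κ ≠ 0 := fun κ h0 => hc0 κ (hP _ h0)
  set d : ℕ := univ.sup (fun i => (P i).natDegree) + 1 with hd
  set H : ℕ := ∑ i, ∑ j ∈ (P i).support, ((P i).coeff j).natAbs with hH
  have hcoef : ∀ i j, ((P i).coeff j).natAbs ≤ ∑ j ∈ (P i).support, ((P i).coeff j).natAbs := by
    intro i j
    by_cases hj : j ∈ (P i).support
    · exact single_le_sum (f := fun j => ((P i).coeff j).natAbs) (fun _ _ => Nat.zero_le _) hj
    · rw [Polynomial.notMem_support_iff.1 hj]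
      exact Nat.zero_le _
  have hFd : ∀ κ, (F κ).natDegree ≤ d := by
    intro κ
    refine Polynomial.natDegree_sum_le_of_forall_le _ _ fun i _ => ?_
    refine (Polynomial.natDegree_C_mul_le _ _).trans ?_
    have : (P i).natDegree ≤ univ.sup (fun i => (P i).natDegree) :=
      le_sup (f := fun i => (P i).natDegree) (mem_univ i)
    omega
  have hFc : ∀ κ j, |(F κ).coeff j| ≤ ((tow h (q' κ) * H : ℕ) : ℤ) := by
    intro κ j
    rw [hF, Polynomial.finsetSum_coeff]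
    refine (abs_sum_le_sum_abs _ _).trans ?_
    rw [hH, mul_sum]
    push_cast
    refine sum_le_sum fun i _ => ?_
    rw [Polynomial.coeff_C_mul, abs_mul]
    refine mul_le_mul (hcB κ i) ?_ (abs_nonneg _) (by positivity)
    have h1 : ((((P i).coeff j).natAbs : ℕ) : ℤ) ≤
        ((∑ j ∈ (P i).support, ((P i).coeff j).natAbs : ℕ) : ℤ) := Int.ofNat_le.2 (hcoef i j)
    rw [Int.abs_eq_natAbs]
    refine h1.trans (le_of_eq ?_)
    rw [Nat.cast_sum]
    simp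
  have hval : ∀ κ, ‖Polynomial.aeval t (F κ)‖ ≤ ‖ξ‖⁻¹ * ((tow κ (q' κ) : ℕ) : ℝ)⁻¹ := by
    intro κ
    have e1 : Polynomial.aeval t (F κ) = ξ⁻¹ * ∑ i, (c κ i : ℂ) * (ξ * Polynomial.aeval t (P i)) := by
      rw [hF, map_sum, mul_sum]
      refine sum_congr rfl fun i _ => ?_
      rw [map_mul, Polynomial.aeval_C]
      simp only [algebraMap_int_eq, eq_intCast]
      field_simp
    rw [e1, norm_mul, norm_inv]
    exact mul_le_mul_of_nonneg_left (hcs κ) (by positivity)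
  obtain ⟨h', hh'⟩ : NE q' (fun κ => tow h (q' κ) * H + d) :=
    NE.add hq' (NE.mul hq' ⟨h, fun _ => le_rfl⟩ (NE.const H)) (NE.const d)
  refine ⟨h', fun κ₀ => ?_⟩
  obtain ⟨κ₁, hκ₁⟩ : NE q' (fun κ => tow κ₀ (q' κ) ^ d * (⌈‖ξ‖⁻¹⌉₊ + 1)) :=
    NE.mul hq' (NE.pow hq' ⟨κ₀, fun _ => le_rfl⟩ (NE.const d)) (NE.const (⌈‖ξ‖⁻¹⌉₊ + 1))
  refine ⟨κ₁, fun κ hκ => ?_⟩
  set T : ℝ := ((tow κ₀ (q' κ) : ℕ) : ℝ) with hT
  have hT2 : 2 ≤ T := by
    have h1 := le_tow κ₀ (q' κ)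
    have h2 := hq' κ
    rw [hT]
    exact_mod_cast (by omega : 2 ≤ tow κ₀ (q' κ))
  have hT0 : 0 < T := by linarith
  have hsmall : ‖Polynomial.aeval t (F κ)‖ ≤ (T ^ d)⁻¹ := by
    refine (hval κ).trans ?_
    have h1 : tow κ₀ (q' κ) ^ d * (⌈‖ξ‖⁻¹⌉₊ + 1) ≤ tow κ (q' κ) :=
      (hκ₁ κ).trans (tow_mono_left hκ _)
    have h2 : T ^ d * ((⌈‖ξ‖⁻¹⌉₊ : ℝ) + 1) ≤ ((tow κ (q' κ) : ℕ) : ℝ) := by
      rw [hT]; exact_mod_cast h1
    have h3 := Nat.le_ceil ‖ξ‖⁻¹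
    have h4 : (0 : ℝ) < (tow κ (q' κ) : ℕ) := lt_of_lt_of_le (by positivity) h2
    rw [← div_eq_mul_inv, div_le_iff₀ h4, inv_mul_eq_div, le_div_iff₀ (by positivity)]
    have h5 : 0 < T ^ d := by positivity
    nlinarith
  have haev : ∀ z : ℂ, ((F κ).map (Int.castRingHom ℂ)).eval z = Polynomial.aeval z (F κ) := by
    intro z
    rw [Polynomial.eval_map, Polynomial.aeval_def]
    rfl
  have hdeg : ((F κ).map (Int.castRingHom ℂ)).natDegree = (F κ).natDegree :=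
    Polynomial.natDegree_map_eq_of_injective (Int.castRingHom ℂ).injective_int _
  have hlc : 1 ≤ ‖((F κ).map (Int.castRingHom ℂ)).leadingCoeff‖ := by
    rw [Polynomial.leadingCoeff_map_of_injective (Int.castRingHom ℂ).injective_int]
    simp only [eq_intCast]
    rw [Complex.norm_intCast]
    exact_mod_cast Int.one_le_abs (Polynomial.leadingCoeff_ne_zero.2 (hF0 κ))
  have hd1 : 1 ≤ d := by omega
  have hTd : 1 < T ^ d := one_lt_pow₀ (by linarith) (by omega)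
  have hn1 : 1 ≤ (F κ).natDegree := by
    by_contra hlt
    have h0 : (F κ).natDegree = 0 := by omega
    obtain ⟨a, ha⟩ := Polynomial.natDegree_eq_zero.1 h0
    have ha0 : a ≠ 0 := by
      rintro rfl
      apply hF0 κ
      rw [← ha, map_zero]
    rw [← ha, Polynomial.aeval_C] at hsmall
    simp only [algebraMap_int_eq, eq_intCast] at hsmall
    rw [Complex.norm_intCast] at hsmall
    have h1 : (1 : ℝ) ≤ |(a : ℝ)| := by exact_mod_cast Int.one_le_abs ha0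
    have h2 : (T ^ d)⁻¹ < 1 := inv_lt_one_of_one_lt₀ hTd
    linarith
  obtain ⟨r, hr0, hr⟩ := near_root ((F κ).map (Int.castRingHom ℂ)) (F κ).natDegree hdeg hn1 t
  rw [haev] at hr0 hr
  refine ⟨r, ⟨F κ, hF0 κ, (hFd κ).trans (le_trans (Nat.le_add_left _ _) (hh' κ)), fun j => ?_, hr0⟩, ?_⟩
  · refine (hFc κ j).trans ?_
    exact_mod_cast (Nat.le_add_right _ _).trans (hh' κ)
  · have h1 : ‖t - r‖ ^ (F κ).natDegree ≤ (T ^ d)⁻¹ := by
      refine le_trans ?_ hsmall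
      refine le_trans ?_ hr
      exact le_mul_of_one_le_left (by positivity) hlc
    by_contra hlt
    push Not at hlt
    have h2 : (T⁻¹) ^ (F κ).natDegree < ‖t - r‖ ^ (F κ).natDegree :=
      pow_lt_pow_left₀ hlt (by positivity) (by omega)
    have h3 : (T ^ d)⁻¹ ≤ (T⁻¹) ^ (F κ).natDegree := by
      rw [inv_pow]
      apply inv_anti₀ (by positivity)
      exact pow_le_pow_right₀ (by linarith) (hFd κ)
    linarith

variable {q : ℕ → ℕ} (hq : ∀ k, 2 ≤ q k)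

include hq

/-- a ratio in `R` gives failures of the lower bounds -/
theorem ratio_notR (y : Fin 2 → ℂ) (hlow : Low q y) (h0 : y 0 ≠ 0) :
    ¬ ∃ x : ℝ, RAppr q x ∧ y 1 / y 0 = x := by
  rintro ⟨x, ⟨h, hh⟩, hx⟩
  set A : ℕ := ⌈|x|⌉₊ + 1 with hA
  obtain ⟨h', hh'⟩ : NE q (fun k => A * tow h (q k) + 1) :=
    NE.add hq (NE.mul hq (NE.const A) ⟨h, fun _ => le_rfl⟩) (NE.const 1)
  obtain ⟨κ₁, hκ₁⟩ := hlow h'
  set B : ℕ := ⌈‖y 0‖⌉₊ with hB
  obtain ⟨κ₂, hκ₂⟩ : NE q (fun k => (B * tow h (q k) + 1) * tow κ₁ (q k)) :=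
    NE.mul hq (NE.add hq (NE.mul hq (NE.const B) ⟨h, fun _ => le_rfl⟩) (NE.const 1))
      ⟨κ₁, fun _ => le_rfl⟩
  obtain ⟨k₀, hk₀⟩ := hh κ₂
  obtain ⟨u, v, hv1, hv2, huv⟩ := hk₀ k₀ le_rfl
  have hv0 : (0 : ℝ) < v := by exact_mod_cast hv1
  have hv1R : (1 : ℝ) ≤ v := by exact_mod_cast hv1
  have ht1 : 1 ≤ tow κ₁ (q k₀) := by
    have := le_tow κ₁ (q k₀)
    have := hq k₀
    omega
  have ht1R : (1 : ℝ) ≤ tow κ₁ (q k₀) := by exact_mod_cast ht1
  have hκ₂k : ((B : ℝ) * tow h (q k₀) + 1) * tow κ₁ (q k₀) ≤ tow κ₂ (q k₀) := by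
    exact_mod_cast hκ₂ k₀
  have hp : (0 : ℝ) < ((B : ℝ) * tow h (q k₀) + 1) * tow κ₁ (q k₀) := by positivity
  have ht2 : (0 : ℝ) < tow κ₂ (q k₀) := lt_of_lt_of_le hp hκ₂k
  have ht3 : ((tow κ₂ (q k₀) : ℕ) : ℝ)⁻¹ ≤ 1 := by
    apply inv_le_one_of_one_le₀
    refine le_trans ?_ hκ₂k
    have : (1 : ℝ) ≤ (B : ℝ) * tow h (q k₀) + 1 := by
      have : (0 : ℝ) ≤ (B : ℝ) * tow h (q k₀) := by positivity
      linarith
    nlinarith
  -- bound for `u`
  have hu : |(u : ℝ)| ≤ (|x| + 1) * v := by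
    have h1 : (u : ℝ) = x * v - (x - u / v) * v := by field_simp; ring
    rw [h1]
    refine (abs_sub _ _).trans ?_
    rw [abs_mul, abs_mul, abs_of_pos hv0, add_mul, one_mul]
    have h2 : |x - u / v| * v ≤ 1 * v := mul_le_mul_of_nonneg_right (huv.trans ht3) hv0.le
    linarith
  have huB : |u| ≤ (tow h' (q k₀) : ℤ) := by
    have h1 : (|(u : ℝ)|) ≤ ((A * tow h (q k₀) + 1 : ℕ) : ℝ) := by
      refine hu.trans ?_
      have h2 := Nat.le_ceil |x|
      have h3 : (v : ℝ) ≤ tow h (q k₀) := by exact_mod_cast hv2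
      rw [hA]
      push_cast
      have h4 : (|x| + 1) * v ≤ ((⌈|x|⌉₊ : ℝ) + 1) * tow h (q k₀) := by gcongr
      linarith
    have h2 : |u| ≤ ((A * tow h (q k₀) + 1 : ℕ) : ℤ) := by exact_mod_cast h1
    exact h2.trans (by exact_mod_cast hh' k₀)
  have hvB : |(v : ℤ)| ≤ (tow h' (q k₀) : ℤ) := by
    rw [abs_of_nonneg (by positivity)]
    have h1 : v ≤ A * tow h (q k₀) + 1 := by
      have : 1 * tow h (q k₀) ≤ A * tow h (q k₀) := Nat.mul_le_mul_right _ (by omega)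
      omega
    exact_mod_cast h1.trans (hh' k₀)
  have hlo := hκ₁ k₀ ![-u, (v : ℤ)] (by
    intro h
    have := congrFun h 1
    simp at this
    omega) (by
    intro m
    fin_cases m
    · simpa using huB
    · simpa using hvB)
  rw [Fin.sum_univ_two] at hlo
  simp only [Matrix.cons_val_zero, Matrix.cons_val_one] at hlo
  have hy1 : y 1 = x * y 0 := by
    rw [← hx]
    field_simp
  have e1 : ((-u : ℤ) : ℂ) * y 0 + (((v : ℕ) : ℤ) : ℂ) * y 1 = ((v : ℝ) * (x - u / v) : ℝ) * y 0 := by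
    rw [hy1]
    have : ((v : ℕ) : ℂ) ≠ 0 := by exact_mod_cast (by omega : v ≠ 0)
    push_cast
    field_simp
    ring
  rw [e1, norm_mul, Complex.norm_real, Real.norm_eq_abs, abs_mul, abs_of_pos hv0] at hlo
  have h5 : v * |x - u / v| * ‖y 0‖ ≤ tow h (q k₀) * ((tow κ₂ (q k₀) : ℕ) : ℝ)⁻¹ * B := by
    have h3 : (v : ℝ) ≤ tow h (q k₀) := by exact_mod_cast hv2
    have h4 := Nat.le_ceil ‖y 0‖
    gcongr
  have h6 : (tow h (q k₀) : ℝ) * ((tow κ₂ (q k₀) : ℕ) : ℝ)⁻¹ * B ≤ ((tow κ₁ (q k₀) : ℕ) : ℝ)⁻¹ := by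
    have h7 : ((tow κ₂ (q k₀) : ℕ) : ℝ)⁻¹ ≤ (((B : ℝ) * tow h (q k₀) + 1) * tow κ₁ (q k₀))⁻¹ :=
      inv_anti₀ hp hκ₂k
    calc (tow h (q k₀) : ℝ) * ((tow κ₂ (q k₀) : ℕ) : ℝ)⁻¹ * B
        ≤ (tow h (q k₀) : ℝ) * (((B : ℝ) * tow h (q k₀) + 1) * tow κ₁ (q k₀))⁻¹ * B := by gcongr
      _ = (B * tow h (q k₀)) / (B * tow h (q k₀) + 1) * (tow κ₁ (q k₀) : ℝ)⁻¹ := by
          field_simp
      _ ≤ 1 * (tow κ₁ (q k₀) : ℝ)⁻¹ := by
          refine mul_le_mul_of_nonneg_right ?_ (by positivity)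
          rw [div_le_one (by positivity)]
          linarith
      _ = _ := one_mul _
  linarith

/-- the transposed form -/
theorem six_transposed (l : Fin 2 → ℂ) (ha : ∀ m, IsAlgebraic ℚ (exp (l m)))
    (hl : ∀ c : Fin 2 → ℤ, ∑ m, (c m : ℂ) * l m = 0 → c = 0) (y : Fin 3 → ℂ)
    (hlow : Low q (fun i => l 0 * y i)) (h : ∀ i m, Appr q (exp (y i * l m))) : False := by
  have h0 : l 0 ≠ 0 := by
    intro h0
    have := hl ![1, 0] (by rw [Fin.sum_univ_two]; simp [h0])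
    have := congrFun this 0
    simp at this
  apply ratio_notR hq l (low_of_alg hq l ha hl) h0
  refine six hq (l 1 / l 0) (fun i => l 0 * y i) hlow (fun i => ?_) (fun i => ?_)
  · have := h i 0
    rwa [mul_comm] at this
  · have := h i 1
    have e : l 1 / l 0 * (l 0 * y i) = y i * l 1 := by field_simp
    rw [e]
    exact this

omit hq in
theorem far_pi : Far ((Real.pi : ℝ) : ℂ) := fun _ hq' => pi_notMem hq'

omit hq in
theorem far_e : Far (exp 1) := by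
  intro q' hq' h
  have h1 := algIndU hq' 1 (fun _ => 1) (by
    rw [linearIndependent_unique_iff]
    exact one_ne_zero)
  have h2 := h1.transcendental 0
  refine h2 ?_
  have h3 : exp (((1 : UK hq') : ℂ)) = algebraMap (UK hq') ℂ ⟨exp 1, h⟩ := rfl
  rw [h3]
  exact isAlgebraic_algebraMap _

end Pool.Agent.R347.SX
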