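import Pool.Agent.HP778.Coords

/-!
# Counting integers of small multiplicative rank
-/

set_option autoImplicit false

namespace Pool.Agent.R347.SX

open Module Finset

/-- the vector of the exponents in the prime factorisation -/
def vec (N n : ℕ) : Fin (N + 1) → ℚ := fun p => (n.factorization p : ℚ)

/-- any `r + 1` elements have a multiplicative relation -/
def RankLE (S : Set ℕ) (r : ℕ) : Prop :=
  ∀ n : Fin (r + 1) → ℕ, (∀ i, n i ∈ S) → ∃ c : Fin (r + 1) → ℤ, c ≠ 0 ∧ ∏ i, (n i : ℚ) ^ c i = 1

theorem padic_prod (p : ℕ) [Fact p.Prime] {ι : Type*} (s : Finset ι) (n : ι → ℕ) (hn : ∀ i, n i ≠ 0)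
    (c : ι → ℤ) : padicValRat p (∏ i ∈ s, (n i : ℚ) ^ c i) = ∑ i ∈ s, c i * (n i).factorization p := by
  classical
  induction s using Finset.induction_on with
  | empty => simp
  | insert i s hi ih =>
    have h0 : ∀ j, ((n j : ℚ)) ≠ 0 := fun j => by exact_mod_cast hn j
    rw [prod_insert hi, sum_insert hi, padicValRat.mul (zpow_ne_zero _ (h0 i))
      (prod_ne_zero_iff.2 fun j _ => zpow_ne_zero _ (h0 j)), ih, padicValRat.zpow,
      padicValRat.of_nat, Nat.factorization_def _ Fact.out]

theorem vec_rel {N m : ℕ} (n : Fin m → ℕ) (hn : ∀ i, 1 ≤ n i) (c : Fin m → ℤ)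
    (h : ∏ i, (n i : ℚ) ^ c i = 1) : ∑ i, (c i : ℚ) • vec N (n i) = 0 := by
  funext p
  rw [Finset.sum_apply, Pi.zero_apply]
  simp only [Pi.smul_apply, vec, smul_eq_mul]
  by_cases hp : (p : ℕ).Prime
  · have : Fact (p : ℕ).Prime := ⟨hp⟩
    have h1 := padic_prod (p : ℕ) univ n (fun i => by have := hn i; omega) c
    rw [h, padicValRat.one] at h1
    have h2 : ((∑ i, c i * ((n i).factorization p : ℤ) : ℤ) : ℚ) = 0 := by rw [← h1]; rfl
    rw [← h2]
    push_cast
    rfl
  · refine sum_eq_zero fun i _ => ?_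
    rw [Nat.factorization_eq_zero_of_not_prime _ hp]
    simp

theorem count {N r : ℕ} (S : Finset ℕ) (hS : ∀ n ∈ S, 1 ≤ n ∧ n ≤ N) (h : RankLE (S : Set ℕ) r) :
    S.card ≤ (Nat.log 2 N + 1) ^ r := by
  classical
  let D : Set (Fin (N + 1) → ℚ) := (fun n => vec N n) '' (S : Set ℕ)
  have hDfin : D.Finite := S.finite_toSet.image _
  obtain ⟨b, hbD, hspan, hbli⟩ := exists_linearIndependent ℚ D
  have hbfin : b.Finite := hDfin.subset hbD
  have : Fintype b := hbfin.fintype
  set W := Submodule.span ℚ D with hW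
  have hfr : finrank ℚ W ≤ r := by
    have hfc := finrank_span_eq_card hbli
    rw [Subtype.range_coe] at hfc
    rw [← hspan, hfc]
    by_contra hcon
    push Not at hcon
    let e := Fintype.equivFin b
    choose n hnS hn using fun i : Fin (Fintype.card b) => hbD (e.symm i).2
    let f : Fin (r + 1) → Fin (Fintype.card b) := Fin.castLE hcon
    obtain ⟨c, hc0, hc⟩ := h (fun i => n (f i)) fun i => hnS _
    have h1 := vec_rel (N := N) (fun i => n (f i)) (fun i => (hS _ (hnS _)).1) c hc
    have h2 : LinearIndependent ℚ (fun i => ((e.symm (f i) : b) : Fin (N + 1) → ℚ)) :=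
      hbli.comp (fun i => e.symm (f i)) (e.symm.injective.comp (Fin.castLE_injective hcon))
    apply hc0
    funext i
    have h3 := Fintype.linearIndependent_iff.1 h2 (fun i => (c i : ℚ)) (by
      rw [← h1]
      refine sum_congr rfl fun i _ => ?_
      congr 1
      exact (hn (f i)).symm) i
    exact_mod_cast h3
  obtain ⟨s, hs, hsep⟩ := Pool.Agent.HP778.exists_coords W
  have hinj : Set.InjOn (fun n : ℕ => fun p : s => n.factorization (p : Fin (N + 1))) (S : Set ℕ) := by
    intro n hn n' hn' heq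
    have h1 : vec N n - vec N n' ∈ W :=
      W.sub_mem (Submodule.subset_span ⟨n, hn, rfl⟩) (Submodule.subset_span ⟨n', hn', rfl⟩)
    have h3 := hsep _ h1 (fun p hp => by
      rw [Pi.sub_apply, vec, vec, sub_eq_zero]
      exact_mod_cast congrFun heq ⟨p, hp⟩)
    obtain ⟨hn1, hnN⟩ := hS n hn
    obtain ⟨hn1', hnN'⟩ := hS n' hn'
    apply Nat.eq_of_factorization_eq (by omega) (by omega)
    intro p
    by_cases hp : p < N + 1
    · have h4 := congrFun h3 ⟨p, hp⟩
      rw [Pi.sub_apply, Pi.zero_apply, sub_eq_zero, vec, vec] at h4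
      exact_mod_cast h4
    · rw [Nat.factorization_eq_zero_of_lt (by omega), Nat.factorization_eq_zero_of_lt (by omega)]
  have hcard : S.card ≤ (Fintype.piFinset (fun _ : s => Finset.range (Nat.log 2 N + 1))).card := by
    refine Finset.card_le_card_of_injOn _ ?_ hinj
    intro n hn
    rw [Finset.mem_coe, Fintype.mem_piFinset]
    intro p
    rw [Finset.mem_range]
    change n.factorization ((p : Fin (N + 1)) : ℕ) < Nat.log 2 N + 1
    obtain ⟨hn1, hnN⟩ := hS n hn
    by_cases hp : ((p : Fin (N + 1)) : ℕ).Prime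
    · have h1 : (p : Fin (N + 1)).1 ^ n.factorization (p : Fin (N + 1)) ≤ n :=
        Nat.le_of_dvd (by omega) (Nat.ordProj_dvd n _)
      have h2 : 2 ^ n.factorization (p : Fin (N + 1)) ≤ N :=
        ((Nat.pow_le_pow_left hp.two_le _).trans h1).trans hnN
      have h3 := Nat.le_log_of_pow_le (by norm_num) h2
      omega
    · rw [Nat.factorization_eq_zero_of_not_prime _ hp]
      omega
  refine hcard.trans ?_
  rw [Fintype.card_piFinset, Finset.prod_const, Finset.card_range, Finset.card_univ,
    Fintype.card_coe]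
  exact Nat.pow_le_pow_right (by omega) (hs.trans hfr)

end Pool.Agent.R347.SX
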