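import Pool.Agent.R347.GS.Fam

/-!
# The functions `exp ((i + j * s) * w)` and their values at the points of a group of rank three
-/

set_option autoImplicit false

namespace Pool.Agent.R347.SX

open Finset Complex
open Pool.Agent.R347.GS (DI DI.mono DI.mul DI.pow DI.add DI.int DI.sum)

variable {d : ℕ}

/-- the two exponents -/
def xx (x : Fin d × Fin d) (c : Fin 2) : ℕ := if c = 0 then x.1 else x.2

/-- the exponents of the generators -/
def ex (a : Fin 3 → ℕ) (x : Fin d × Fin d) (p : Fin 2 × Fin 3) : ℕ := a p.2 * xx x p.1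

/-- the two frequencies -/
noncomputable def cf (s : ℂ) (c : Fin 2) : ℂ := if c = 0 then 1 else s

/-- the functions -/
noncomputable def fn (s : ℂ) (x : Fin d × Fin d) (w : ℂ) : ℂ := exp (((x.1 : ℕ) + (x.2 : ℕ) * s) * w)

/-- the points -/
noncomputable def pt (y : Fin 3 → ℂ) (a : Fin 3 → ℕ) : ℂ := ∑ m, (a m : ℂ) * y m

/-- the approximate values -/
def val {R : Type*} [CommRing R] (B : Fin 2 × Fin 3 → R) (a : Fin 3 → ℕ) (x : Fin d × Fin d) : R :=
  ∏ p, B p ^ ex a x p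

/-- the box -/
def box (T : ℕ) : Finset (Fin 3 → ℕ) := Fintype.piFinset fun _ => range T

theorem mem_box {T : ℕ} {a : Fin 3 → ℕ} : a ∈ box T ↔ ∀ m, a m < T := by
  simp [box, Fintype.mem_piFinset]

theorem box_mono : Monotone box := by
  intro S T h a ha
  rw [mem_box] at *
  exact fun m => (ha m).trans_le h

theorem card_box (T : ℕ) : (box T).card = T ^ 3 := by
  rw [box, Fintype.card_piFinset]
  simp

theorem fn_diff (s : ℂ) (x : Fin d × Fin d) : Differentiable ℂ (fn s x) := by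
  unfold fn
  fun_prop

theorem fn_pt (s : ℂ) (y : Fin 3 → ℂ) (a : Fin 3 → ℕ) (x : Fin d × Fin d) :
    fn s x (pt y a) = ∏ p : Fin 2 × Fin 3, exp (cf s p.1 * y p.2) ^ ex a x p := by
  have h : ∀ p : Fin 2 × Fin 3, exp (cf s p.1 * y p.2) ^ ex a x p =
      exp ((ex a x p : ℕ) * (cf s p.1 * y p.2)) := fun p => by rw [exp_nat_mul]
  simp only [h]
  rw [← exp_sum]
  unfold fn
  congr 1
  rw [Fintype.sum_prod_type, Fin.sum_univ_two, pt, Fin.sum_univ_three, Fin.sum_univ_three,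
    Fin.sum_univ_three]
  simp only [ex, xx, cf]
  simp
  ring

theorem xx_le (x : Fin d × Fin d) (c : Fin 2) : xx x c ≤ d := by
  unfold xx
  split
  · exact x.1.2.le
  · exact x.2.2.le

theorem sum_ex_le {T : ℕ} {a : Fin 3 → ℕ} (ha : a ∈ box T) (x : Fin d × Fin d) :
    ∑ p, ex a x p ≤ 6 * (T * d) := by
  calc ∑ p, ex a x p ≤ ∑ _p : Fin 2 × Fin 3, T * d := sum_le_sum fun p _ =>
        Nat.mul_le_mul (mem_box.1 ha _).le (xx_le x _)
    _ = _ := by rw [sum_const, card_univ]; simp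

theorem prod_pow_sub {ι : Type*} (u v : ι → ℂ) (B η : ℝ) (hB : 1 ≤ B) (hη : 0 ≤ η)
    (hu : ∀ i, ‖u i‖ ≤ B) (hv : ∀ i, ‖v i‖ ≤ B) (e : ∀ i, ‖u i - v i‖ ≤ η) (n : ι → ℕ) (s : Finset ι) :
    ‖∏ i ∈ s, u i ^ n i - ∏ i ∈ s, v i ^ n i‖ ≤ (∑ i ∈ s, n i : ℕ) * B ^ (∑ i ∈ s, n i) * η := by
  classical
  induction s using Finset.induction_on with
  | empty => simp
  | insert i s hi ih =>
    rw [prod_insert hi, prod_insert hi, sum_insert hi]
    set U := ∏ j ∈ s, u j ^ n j with hU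
    set W := ∏ j ∈ s, v j ^ n j with hW
    set N := ∑ j ∈ s, n j with hN
    have hB0 : 0 ≤ B := by linarith
    have hUb : ‖U‖ ≤ B ^ N := by
      rw [hU, norm_prod, hN, ← prod_pow_eq_pow_sum]
      refine prod_le_prod (fun _ _ => norm_nonneg _) fun j _ => ?_
      rw [norm_pow]
      exact pow_le_pow_left₀ (norm_nonneg _) (hu j) _
    have h1 := Pool.Agent.R347.LW.pow_sub_le (u i) (v i) B hB (hu i) (hv i) (n i)
    have h2 : ‖u i ^ n i - v i ^ n i‖ ≤ n i * B ^ n i * η :=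
      h1.trans (mul_le_mul_of_nonneg_left (e i) (by positivity))
    have h3 : ‖v i ^ n i‖ ≤ B ^ n i := by
      rw [norm_pow]
      exact pow_le_pow_left₀ (norm_nonneg _) (hv i) _
    have e1 : u i ^ n i * U - v i ^ n i * W = (u i ^ n i - v i ^ n i) * U + v i ^ n i * (U - W) := by ring
    rw [e1]
    refine (norm_add_le _ _).trans ?_
    rw [norm_mul, norm_mul]
    have t1 := mul_le_mul h2 hUb (norm_nonneg _) (by positivity)
    have t2 := mul_le_mul h3 ih (norm_nonneg _) (by positivity)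
    refine (add_le_add t1 t2).trans (le_of_eq ?_)
    rw [pow_add]
    push_cast
    ring

/-- the approximations of the values -/
theorem apx (T : ℕ) (s : ℂ) (y : Fin 3 → ℂ) (A : Fin 2 × Fin 3 → ℂ) (B η : ℝ) (hB : 1 ≤ B) (hη : 0 ≤ η)
    (h1 : ∀ p : Fin 2 × Fin 3, ‖exp (cf s p.1 * y p.2)‖ ≤ B) (h2 : ∀ p, ‖A p‖ ≤ B)
    (e : ∀ p : Fin 2 × Fin 3, ‖exp (cf s p.1 * y p.2) - A p‖ ≤ η) (a : Fin 3 → ℕ) (ha : a ∈ box T)
    (x : Fin d × Fin d) :
    ‖fn s x (pt y a) - val A a x‖ ≤ (6 * (T * d) : ℕ) * B ^ (6 * (T * d)) * η := by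
  rw [fn_pt]
  unfold val
  refine (prod_pow_sub (fun p : Fin 2 × Fin 3 => exp (cf s p.1 * y p.2)) A B η hB hη h1 h2 e _
    univ).trans ?_
  have h := sum_ex_le ha x
  have h3 : ((∑ p, ex a x p : ℕ) : ℝ) ≤ ((6 * (T * d) : ℕ) : ℝ) := by exact_mod_cast h
  have h4 : B ^ (∑ p, ex a x p) ≤ B ^ (6 * (T * d)) := pow_le_pow_right₀ hB h
  have hB0 : 0 ≤ B := by linarith
  gcongr

variable {L : IntermediateField ℚ ℂ}

theorem DI.prod {D : ℕ} {ι : Type*} (s : Finset ι) (m : ι → ℕ) (x : ι → L) (h : ∀ i ∈ s, DI D (m i) (x i)) :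
    DI D (∑ i ∈ s, m i) (∏ i ∈ s, x i) := by
  classical
  induction s using Finset.induction_on with
  | empty =>
    have := DI.int (L := L) D 0 1
    simpa using this
  | insert i s hi ih =>
    rw [sum_insert hi, prod_insert hi]
    exact (h i (mem_insert_self _ _)).mul (ih fun j hj => h j (mem_insert_of_mem hj))

theorem val_DI (D T : ℕ) (A : Fin 2 × Fin 3 → L) (hA : ∀ p, DI D 1 (A p)) (a : Fin 3 → ℕ)
    (ha : a ∈ box T) (x : Fin d × Fin d) : DI D (6 * (T * d)) (val A a x) := by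
  have h := DI.prod (D := D) univ (fun p => ex a x p * 1) (fun p => A p ^ ex a x p)
    fun p _ => (hA p).pow _
  simp only [mul_one] at h
  exact h.mono (sum_ex_le ha x)

theorem val_conj (T : ℕ) (A : Fin 2 × Fin 3 → L) (H : ℝ) (hH : 1 ≤ H) (σ : L ≃ₐ[ℚ] L)
    (hA : ∀ p, ‖((σ (A p) : L) : ℂ)‖ ≤ H) (a : Fin 3 → ℕ) (ha : a ∈ box T) (x : Fin d × Fin d) :
    ‖((σ (val A a x) : L) : ℂ)‖ ≤ H ^ (6 * (T * d)) := by
  have e : ((σ (val A a x) : L) : ℂ) = ∏ p, ((σ (A p) : L) : ℂ) ^ ex a x p := by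
    unfold val
    rw [map_prod]
    push_cast
    refine prod_congr rfl fun p _ => ?_
    rw [map_pow]
    push_cast
    rfl
  rw [e, norm_prod]
  have hH0 : 0 ≤ H := by linarith
  calc ∏ p, ‖((σ (A p) : L) : ℂ) ^ ex a x p‖ ≤ ∏ p, H ^ ex a x p :=
        prod_le_prod (fun _ _ => norm_nonneg _) fun p _ => by
          rw [norm_pow]
          exact pow_le_pow_left₀ (norm_nonneg _) (hA p) _
    _ = H ^ (∑ p, ex a x p) := prod_pow_eq_pow_sum _ _ _
    _ ≤ _ := pow_le_pow_right₀ hH (sum_ex_le ha x)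

theorem val_coe (A : Fin 2 × Fin 3 → L) (a : Fin 3 → ℕ) (x : Fin d × Fin d) :
    ((val A a x : L) : ℂ) = val (fun p => ((A p : L) : ℂ)) a x := by
  unfold val
  push_cast
  rfl

theorem fn_le (s : ℂ) (Y R : ℕ) (hs : ‖s‖ ≤ Y) (hY : 1 ≤ Y) (x : Fin d × Fin d) (w : ℂ)
    (hw : ‖w‖ ≤ R) : ‖fn s x w‖ ≤ 2 ^ (2 * (2 * d * Y * R)) := by
  unfold fn
  refine (norm_exp_le_exp_norm _).trans (le_trans ?_ (Pool.Agent.R347.GS.exp_le_two_pow _))
  apply Real.exp_le_exp.2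
  rw [norm_mul]
  push_cast
  have h1 : ((x.1 : ℕ) : ℝ) ≤ d := by exact_mod_cast x.1.2.le
  have h2 : ((x.2 : ℕ) : ℝ) ≤ d := by exact_mod_cast x.2.2.le
  have hY1 : (1 : ℝ) ≤ Y := by exact_mod_cast hY
  have h3 : ‖((x.1 : ℕ) : ℂ) + ((x.2 : ℕ) : ℂ) * s‖ ≤ 2 * d * Y := by
    refine (norm_add_le _ _).trans ?_
    rw [norm_mul, Complex.norm_natCast, Complex.norm_natCast]
    have h4 : ((x.2 : ℕ) : ℝ) * ‖s‖ ≤ d * Y := mul_le_mul h2 hs (norm_nonneg _) (by positivity)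
    have h5 : ((x.1 : ℕ) : ℝ) ≤ d * Y := h1.trans (le_mul_of_one_le_right (by positivity) hY1)
    linarith
  exact mul_le_mul h3 hw (norm_nonneg _) (by positivity)

end Pool.Agent.R347.SX
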