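import Pool.Agent.R347.SX.Main

/-!
# Rationally approximable numbers are rational or Liouville numbers
-/

set_option autoImplicit false

namespace Pool.Agent.R347.SX

open Pool.Agent.R347.LW

variable {q : ℕ → ℕ}

/-- the irrational numbers among the rationally approximable ones are Liouville numbers -/
theorem rappr_liouville {x : ℝ} (hx : RAppr q x) (hirr : Irrational x) : Liouville x := by
  have hcon : ¬ ∃ r : ℚ, (r : ℝ) = x := fun ⟨r, hr⟩ => hirr ⟨r, hr⟩
  have hL : Liouville x := by
    intro n
    obtain ⟨h, hh⟩ := hx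
    -- choose a tower which is larger
    obtain ⟨κ, hκ⟩ : ∃ κ : ℕ, ∀ k, (2 * tow h (q k)) ^ n < tow κ (q k) := by
      refine ⟨h + n + 4, fun k => ?_⟩
      set t := tow h (q k) with ht
      have h1 : t < 2 ^ t := Nat.lt_two_pow_self
      have h2 : n < 2 ^ n := Nat.lt_two_pow_self
      have h3 : (2 * t) ^ n ≤ (2 ^ (t + 1)) ^ n := by
        refine Nat.pow_le_pow_left ?_ _
        rw [pow_succ]; omega
      have h4 : (2 * t) ^ n ≤ 2 ^ ((t + 1) * n) := by rw [pow_mul]; exact h3
      have h5 : n ≤ tow n t := by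
        have := le_tow n t
        omega
      have h6 : t + 1 ≤ 2 ^ t := h1
      have h7 : (t + 1) * n < 2 ^ (tow n t + t) := by
        rw [pow_add]
        have h8 : n < 2 ^ tow n t := lt_of_le_of_lt h5 Nat.lt_two_pow_self
        have h9 : 0 < 2 ^ t := by positivity
        nlinarith
      have h10 : tow n t + t ≤ tow (n + 2) t := by
        have h11 : t ≤ tow n t := by
          have := le_tow n t
          omega
        have h12 := two_mul_le_pow (tow n t)
        have h13 : tow (n + 1) t = 2 ^ tow n t := rfl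
        have h14 := (tow_lt_succ (n + 1) t).le
        have h18 : tow (n + 1 + 1) t = tow (n + 2) t := rfl
        omega
      have h15 : 2 ^ (tow n t + t) ≤ tow (n + 3) t := by
        rw [tow_succ]
        exact Nat.pow_le_pow_right (by norm_num) h10
      have h16 : 2 ^ ((t + 1) * n) < tow (n + 4) t := by
        rw [tow_succ]
        exact Nat.pow_lt_pow_right (by norm_num) (lt_of_lt_of_le h7 h15)
      have h17 : tow (n + 4) t = tow (h + n + 4) (q k) := by
        rw [ht, tow_tow]
        congr 1
        ring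
      omega
    obtain ⟨k₀, hk₀⟩ := hh κ
    obtain ⟨u, v, hv1, hv2, huv⟩ := hk₀ k₀ le_rfl
    refine ⟨2 * u, 2 * v, by omega, ?_, ?_⟩
    · intro h
      exact hcon ⟨(2 * u : ℤ) / (2 * v : ℤ), by rw [h]; push_cast; ring⟩
    · have e : ((2 * u : ℤ) : ℝ) / ((2 * (v : ℤ) : ℤ) : ℝ) = u / v := by
        push_cast
        rw [mul_div_mul_left _ _ (by norm_num)]
      rw [e]
      refine lt_of_le_of_lt huv ?_
      have h1 : (2 * v) ^ n < tow κ (q k₀) :=
        lt_of_le_of_lt (Nat.pow_le_pow_left (by omega) n) (hκ k₀)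
      have hv0 : (0 : ℝ) < ((2 * (v : ℤ) : ℤ) : ℝ) ^ n := by
        have : (0 : ℝ) < v := by exact_mod_cast hv1
        push_cast
        positivity
      rw [one_div]
      apply inv_strictAnti₀ hv0
      push_cast
      exact_mod_cast h1
  exact hL

end Pool.Agent.R347.SX
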