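import Pool.Agent.R347.SX.Main

/-!
# Lower bounds for integer combinations of logarithms of algebraic numbers
-/

set_option autoImplicit false

namespace Pool.Agent.R347.SX

open Finset Complex
open Pool.Agent.R347.LW
open Pool.Agent.R347.GS (NE NE.const NE.mul NE.add NE.pow DI DI.mono DI.mul DI.pow DI.add DI.int DI.sum liouville)

variable {q : ℕ → ℕ} (hq : ∀ k, 2 ≤ q k)

theorem exists_RB {z : ℂ} (hz : IsAlgebraic ℚ z) : ∃ d N : ℕ, RB d N z := by
  have hz' : IsAlgebraic ℤ z := (IsFractionRing.isAlgebraic_iff ℤ ℚ ℂ).2 hz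
  obtain ⟨P, hP, hPz⟩ := hz'
  refine ⟨P.natDegree, ∑ i ∈ P.support, (P.coeff i).natAbs, P, hP, le_rfl, fun n => ?_, hPz⟩
  by_cases hn : n ∈ P.support
  · have h1 : (P.coeff n).natAbs ≤ ∑ i ∈ P.support, (P.coeff i).natAbs :=
      single_le_sum (f := fun i => (P.coeff i).natAbs) (fun _ _ => Nat.zero_le _) hn
    rw [Int.abs_eq_natAbs]
    exact_mod_cast h1
  · rw [Polynomial.notMem_support_iff.1 hn, abs_zero]
    positivity

include hq

theorem low_of_alg {n : ℕ} (l : Fin n → ℂ) (ha : ∀ m, IsAlgebraic ℚ (exp (l m)))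
    (hl : ∀ c : Fin n → ℤ, ∑ m, (c m : ℂ) * l m = 0 → c = 0) : Low q l := by
  classical
  choose d' N' hRB using fun m => exists_RB (ha m)
  set d := univ.sup d' with hd
  set N := univ.sup N' with hN
  obtain ⟨L, hL1, hL2, -, A, D, hA, hD1, -, hint, hconj⟩ := common_field d N (fun m => exp (l m))
    (fun m => (hRB m).mono (le_sup (f := d') (mem_univ m)) (le_sup (f := N') (mem_univ m)))
  set g := Fintype.card (L ≃ₐ[ℚ] L) with hg
  set H : ℕ := N + 1 with hH
  have hDI : ∀ i, DI D 1 (A i) := by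
    intro i
    unfold DI
    rw [pow_one]
    exact hint i
  intro h
  obtain ⟨κ, hκ⟩ : NE q (fun k => (D ^ (n * tow h (q k)) * (2 * H ^ (n * tow h (q k)))) ^ g *
      (H ^ (n * tow h (q k)) * 2) + 1) :=
    NE.add hq (NE.mul hq (NE.pow hq (NE.mul hq
      (NE.pow hq (NE.const D) (NE.mul hq (NE.const n) ⟨h, fun _ => le_rfl⟩))
      (NE.mul hq (NE.const 2) (NE.pow hq (NE.const H) (NE.mul hq (NE.const n) ⟨h, fun _ => le_rfl⟩))))
      (NE.const g)) (NE.mul hq (NE.pow hq (NE.const H)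
        (NE.mul hq (NE.const n) ⟨h, fun _ => le_rfl⟩)) (NE.const 2))) (NE.const 1)
  refine ⟨κ, fun k c hc0 hcB => ?_⟩
  by_contra hcon
  push Not at hcon
  set B := tow h (q k) with hB
  have hκk := hκ k
  simp only at hκk
  set w : ℂ := ∑ m, (c m : ℂ) * l m with hw
  have htp : 1 ≤ tow κ (q k) := by
    have := le_tow κ (q k)
    have := hq k
    omega
  have hw1 : ‖w‖ ≤ 1 := hcon.trans (inv_le_one_of_one_le₀ (by exact_mod_cast htp))
  set a : Fin n → ℕ := fun m => (c m).toNat with had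
  set b : Fin n → ℕ := fun m => (-c m).toNat with hbd
  have hab : ∀ m, (c m : ℂ) = (a m : ℂ) - (b m : ℂ) := by
    intro m
    have : c m = (a m : ℤ) - (b m : ℤ) := by
      simp only [had, hbd]
      omega
    rw [this]
    push_cast
    rfl
  have haB : ∀ m, a m ≤ B := by
    intro m
    have := abs_le.1 (hcB m)
    simp only [had]
    omega
  have hbB : ∀ m, b m ≤ B := by
    intro m
    have := abs_le.1 (hcB m)
    simp only [hbd]
    omega
  set x : L := ∏ m, A m ^ a m + -∏ m, A m ^ b m with hx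
  have hsum : ∀ e : Fin n → ℕ, (∀ m, e m ≤ B) → ∑ m, e m * 1 ≤ n * B := by
    intro e he
    calc ∑ m, e m * 1 ≤ ∑ _m : Fin n, B := sum_le_sum fun m _ => by rw [mul_one]; exact he m
      _ = _ := by rw [sum_const, card_univ, Fintype.card_fin, smul_eq_mul]
  have hprodDI : ∀ e : Fin n → ℕ, (∀ m, e m ≤ B) → DI D (n * B) (∏ m, A m ^ e m) := by
    intro e he
    have h1 := DI.prod (D := D) univ (fun m => e m * 1) (fun m => A m ^ e m)
      fun m _ => (hDI m).pow _
    refine h1.mono ?_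
    exact hsum e he
  have hneg : ∀ (m : ℕ) (y : L), DI D m y → DI D m (-y) := by
    intro m y hy
    unfold DI at *
    rw [mul_neg]
    exact IsIntegral.neg hy
  have hxDI : DI D (n * B) x := (hprodDI a haB).add (hneg _ _ (hprodDI b hbB))
  have hH1 : (1 : ℝ) ≤ (H : ℝ) := by exact_mod_cast (by omega : 1 ≤ H)
  have hprodc : ∀ (σ : L ≃ₐ[ℚ] L) (e : Fin n → ℕ), (∀ m, e m ≤ B) →
      ‖((σ (∏ m, A m ^ e m) : L) : ℂ)‖ ≤ (H : ℝ) ^ (n * B) := by
    intro σ e he
    have e1 : ((σ (∏ m, A m ^ e m) : L) : ℂ) = ∏ m, ((σ (A m) : L) : ℂ) ^ e m := by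
      rw [map_prod]
      push_cast
      refine prod_congr rfl fun p _ => ?_
      rw [map_pow]
      push_cast
      rfl
    rw [e1, norm_prod]
    calc ∏ m, ‖((σ (A m) : L) : ℂ) ^ e m‖ ≤ ∏ m, (H : ℝ) ^ e m :=
          prod_le_prod (fun _ _ => norm_nonneg _) fun m _ => by
            rw [norm_pow]
            refine pow_le_pow_left₀ (norm_nonneg _) ((hconj m σ).trans ?_) _
            rw [hH]; push_cast; exact le_rfl
      _ = (H : ℝ) ^ (∑ m, e m) := prod_pow_eq_pow_sum _ _ _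
      _ ≤ _ := pow_le_pow_right₀ hH1 (by
        have := hsum e he
        simpa using this)
  have hxc : ∀ σ : L ≃ₐ[ℚ] L, ‖((σ x : L) : ℂ)‖ ≤ 2 * (H : ℝ) ^ (n * B) := by
    intro σ
    rw [hx, map_add, map_neg]
    push_cast
    refine (norm_add_le _ _).trans ?_
    rw [norm_neg]
    have t1 := hprodc σ a haB
    have t2 := hprodc σ b hbB
    linarith
  have hE : ∀ e : Fin n → ℕ, (((∏ m, A m ^ e m : L)) : ℂ) = exp (∑ m, (e m : ℂ) * l m) := by
    intro e
    push_cast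
    rw [exp_sum]
    refine prod_congr rfl fun m _ => ?_
    rw [hA, exp_nat_mul]
  have hxe : (x : ℂ) = (exp w - 1) * ((∏ m, A m ^ b m : L) : ℂ) := by
    rw [hx]
    rw [show ((∏ m, A m ^ a m + -∏ m, A m ^ b m : L) : ℂ) =
      ((∏ m, A m ^ a m : L) : ℂ) - ((∏ m, A m ^ b m : L) : ℂ) by push_cast; ring]
    rw [hE, hE, sub_mul, one_mul, ← exp_add]
    congr 2
    rw [hw, ← sum_add_distrib]
    refine sum_congr rfl fun m _ => ?_
    rw [hab]
    ring
  by_cases hx0 : x = 0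
  · rw [hx0] at hxe
    have hb0 : ((∏ m, A m ^ b m : L) : ℂ) ≠ 0 := by rw [hE]; exact exp_ne_zero _
    have h1 : exp w = 1 := by
      have h2 : (exp w - 1) * ((∏ m, A m ^ b m : L) : ℂ) = 0 := by rw [← hxe]; rfl
      rcases mul_eq_zero.1 h2 with h3 | h3
      · exact sub_eq_zero.1 h3
      · exact absurd h3 hb0
    obtain ⟨r, hn⟩ := exp_eq_one_iff.1 h1
    have h2 : ‖w‖ = |(r : ℝ)| * (2 * Real.pi) := by
      rw [hn, norm_mul, norm_intCast]
      congr 1
      simp [abs_of_pos Real.pi_pos]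
    have hn0 : r = 0 := by
      by_contra hne
      have h3 : (1 : ℝ) ≤ |(r : ℝ)| := by exact_mod_cast Int.one_le_abs hne
      have h4 := Real.pi_gt_three
      rw [h2] at hw1
      nlinarith
    apply hc0
    apply hl
    rw [← hw, hn, hn0]
    simp
  · have h1 := liouville L D (n * B) g rfl x hxDI hx0 (2 * (H : ℝ) ^ (n * B)) (by
      have : (1 : ℝ) ≤ (H : ℝ) ^ (n * B) := one_le_pow₀ hH1
      linarith) hxc hD1
    have h2 : ‖(x : ℂ)‖ ≤ (2 * ‖w‖) * (H : ℝ) ^ (n * B) := by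
      rw [hxe, norm_mul]
      exact mul_le_mul (norm_exp_sub_one_le hw1) (hprodc 1 b hbB) (norm_nonneg _) (by positivity)
    have h3 : ((D : ℝ) ^ (n * B) * (2 * (H : ℝ) ^ (n * B))) ^ g * ‖(x : ℂ)‖ ≤
        (((D : ℝ) ^ (n * B) * (2 * (H : ℝ) ^ (n * B))) ^ g * ((H : ℝ) ^ (n * B) * 2)) * ‖w‖ := by
      refine (mul_le_mul_of_nonneg_left h2 (by positivity)).trans (le_of_eq (by ring))
    have h4 : (((D : ℝ) ^ (n * B) * (2 * (H : ℝ) ^ (n * B))) ^ g * ((H : ℝ) ^ (n * B) * 2)) + 1 ≤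
        tow κ (q k) := by exact_mod_cast hκk
    have h5 : (0 : ℝ) < tow κ (q k) := by exact_mod_cast htp
    have h6 : ((tow κ (q k) : ℕ) : ℝ) * ‖w‖ ≤ 1 := by
      have := mul_le_mul_of_nonneg_left hcon h5.le
      rwa [mul_inv_cancel₀ h5.ne'] at this
    have h7 : 0 < ‖w‖ := by
      rw [norm_pos_iff]
      intro h0
      rw [h0, norm_zero, mul_zero] at h3
      linarith
    nlinarith

/-- **The six exponentials theorem over the field of well approximable numbers.** -/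
theorem six_alg (s : ℂ) (l : Fin 3 → ℂ) (ha : ∀ m, IsAlgebraic ℚ (exp (l m)))
    (hl : ∀ c : Fin 3 → ℤ, ∑ m, (c m : ℂ) * l m = 0 → c = 0)
    (h2 : ∀ m, Appr q (exp (s * l m))) : ∃ x : ℝ, RAppr q x ∧ s = x := by
  refine six hq s l (low_of_alg hq l ha hl) (fun m => ?_) h2
  obtain ⟨P, hP, hPz⟩ := (IsFractionRing.isAlgebraic_iff ℤ ℚ ℂ).2 (ha m)
  exact Appr.ofAlg hq P hP hPz

end Pool.Agent.R347.SX
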