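import Pool.Agent.R347.SX.Final
import Pool.Agent.R347.GS.Main

/-!
# The six exponentials theorem over the field of well approximable numbers
-/

set_option autoImplicit false

namespace Pool.Agent.R347.SX

open Finset Complex
open Pool.Agent.R347.LW
open Pool.Agent.R347.GS (NE NE.const NE.mul NE.add NE.pow DI DI.mono DI.mul DI.pow DI.add DI.int DI.sum liouville)

section

variable {Ω : Type} {q : Ω → ℕ} (hq : ∀ ω, 2 ≤ q ω) {Y V : Ω → ℕ} (hY : NE q Y) (hV : NE q V)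

include hq hY

theorem NE_ss : NE q (fun ω => ss (Y ω)) :=
  NE.pow hq (NE.const 2) (NE.mul hq (NE.const 16) hY)

theorem NE_DD : NE q (fun ω => DD (Y ω)) :=
  NE.mul hq (NE.mul hq (NE.const 4) (NE.pow hq (NE.add hq hY (NE.const 2)) (NE.const 2)))
    (NE.pow hq (NE_ss hq hY) (NE.const 3))

theorem NE_SS : NE q (fun ω => SS (Y ω)) :=
  NE.mul hq (NE.mul hq (NE.const 2) (NE.add hq hY (NE.const 2)))
    (NE.pow hq (NE_ss hq hY) (NE.const 2))

theorem NE_Tf : NE q (fun ω => Tf (Y ω)) :=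
  NE.add hq (NE.mul hq (NE.const 16) (NE.pow hq (NE_DD hq hY) (NE.const 6))) (NE.const 1)

theorem NE_tt : NE q (fun ω => tt (Y ω)) := NE.mul hq (NE.const 320) hY

theorem NE_gam {T : Ω → ℕ} (hT : NE q T) : NE q (fun ω => gam (Y ω) (T ω)) :=
  NE.mul hq (NE.mul hq (NE.mul hq (NE.const 20) (NE.pow hq hY (NE.const 2))) (NE_DD hq hY)) hT

theorem NE_hh {T : Ω → ℕ} (hT : NE q T) : NE q (fun ω => hh (Y ω) (T ω)) :=
  NE.mul hq (NE.mul hq (NE.mul hq (NE.const 6) hY) hT) (NE_DD hq hY)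

theorem NE_EE : NE q (fun ω => EE (Y ω)) :=
  NE.add hq (NE.add hq (NE.add hq (NE.add hq (NE.const 3) (NE_tt hq hY))
    (NE_gam hq hY (NE_SS hq hY))) (NE.mul hq (NE.pow hq hY (NE.const 2))
      (NE.mul hq (NE.mul hq (NE.const 6) (NE_SS hq hY)) (NE_DD hq hY))))
    (NE.mul hq hY (NE.add hq (NE_tt hq hY) (NE_hh hq hY (NE_SS hq hY))))

theorem NE_lam {T : Ω → ℕ} (hT : NE q T) : NE q (fun ω => lam (Y ω) (T ω)) :=
  NE.mul hq hY (NE.add hq (NE.mul hq hY (NE.mul hq (NE.mul hq (NE.const 6) hT) (NE_DD hq hY)))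
    (NE.add hq (NE.add hq (NE_tt hq hY) (NE_EE hq hY)) (NE_hh hq hY hT)))

theorem NE_VB : NE q (fun ω => VB (Y ω)) :=
  NE.add hq (NE.add hq (NE.mul hq (NE.mul hq (NE.const 4) (NE.add hq (NE.mul hq (NE.mul hq
    (NE_DD hq hY) (NE.pow hq hY (NE.const 2))) (NE_Tf hq hY)) (NE.const 1))) (NE_Tf hq hY))
    (NE_Tf hq hY)) (NE_DD hq hY)

theorem NE_QQ : NE q (fun ω => QQ (Y ω)) :=
  NE.add hq (NE.add hq (NE.const 3) (NE.mul hq (NE.const 2) (NE_tt hq hY)))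
    (NE.mul hq (NE.add hq (NE.mul hq (NE.const 2) (NE.pow hq hY (NE.const 2)))
      (NE.mul hq (NE.const 2) hY)) (NE.mul hq (NE.const 6) (NE.mul hq (NE_Tf hq hY) (NE_DD hq hY))))

include hV

theorem NE_PP : NE q (fun ω => PP (Y ω) (V ω)) :=
  NE.add hq (NE.add hq (NE.add hq (NE.add hq (NE.const 10) (NE.mul hq (NE.const 4) (NE_tt hq hY)))
    (NE_EE hq hY)) (NE.mul hq (NE.add hq (NE.add hq (NE.add hq (NE.const 4) hY) (NE_tt hq hY)) hV)
      (NE.pow hq (NE_Tf hq hY) (NE.const 3))))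
    (NE_lam hq hY (NE_Tf hq hY))

end

/-- the integer combinations of the `y_m` are not too small -/
def Low {n : ℕ} (q : ℕ → ℕ) (y : Fin n → ℂ) : Prop :=
  ∀ h : ℕ, ∃ κ : ℕ, ∀ k, ∀ c : Fin n → ℤ, c ≠ 0 → (∀ m, |c m| ≤ tow h (q k)) →
    ((tow κ (q k) : ℕ) : ℝ)⁻¹ < ‖∑ m, (c m : ℂ) * y m‖

variable {q : ℕ → ℕ} (hq : ∀ k, 2 ≤ q k)

include hq

/-- **The six exponentials theorem for well approximable numbers.** -/
theorem six (s : ℂ) (y : Fin 3 → ℂ) (hlow : Low q y) (h1 : ∀ m, Appr q (exp (y m)))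
    (h2 : ∀ m, Appr q (exp (s * y m))) : ∃ x : ℝ, RAppr q x ∧ s = x := by
  classical
  have hW : ∀ p : Fin 2 × Fin 3, Appr q (exp (cf s p.1 * y p.2)) := by
    rintro ⟨c, m⟩
    unfold cf
    split
    · rw [one_mul]; exact h1 m
    · exact h2 m
  choose hp hhp using hW
  set h : ℕ := univ.sup hp with hh
  have hple : ∀ p, hp p ≤ h := fun p => le_sup (f := hp) (mem_univ p)
  set X₀ : ℕ := ⌈‖s‖⌉₊ + ⌈∑ m, ‖y m‖⌉₊ + 2 with hX₀
  have hNE : NE q (fun k => (6 * tow h (q k) + 1) ^ (6 * tow h (q k) + 1) + tow h (q k) ^ 6 +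
      (tow h (q k) + 1) + X₀) :=
    NE.add hq (NE.add hq (NE.add hq (NE.pow hq
      (NE.add hq (NE.mul hq (NE.const 6) ⟨h, fun _ => le_rfl⟩) (NE.const 1))
      (NE.add hq (NE.mul hq (NE.const 6) ⟨h, fun _ => le_rfl⟩) (NE.const 1)))
      (NE.pow hq ⟨h, fun _ => le_rfl⟩ (NE.const 6)))
      (NE.add hq ⟨h, fun _ => le_rfl⟩ (NE.const 1))) (NE.const X₀)
  obtain ⟨hY, hhY⟩ := hNE
  obtain ⟨hD, hhD⟩ := NE_VB hq (Y := fun k => tow hY (q k)) ⟨hY, fun _ => le_rfl⟩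
  obtain ⟨κ₁, hκ₁⟩ := hlow hD
  have main : ∀ κ : ℕ, ∃ k₀ : ℕ, ∀ k ≥ k₀, ∃ (u : ℤ) (v : ℕ), 1 ≤ v ∧ v ≤ tow hD (q k) ∧
      ‖s - u / v‖ ≤ ((tow κ (q k) : ℕ) : ℝ)⁻¹ := by
    intro κ'
    set κ := max κ' κ₁ with hκd
    obtain ⟨κ'', hκ''⟩ := NE.add hq
      (NE_PP hq (Y := fun k => tow hY (q k)) (V := fun k => tow κ (q k)) ⟨hY, fun _ => le_rfl⟩
        ⟨κ, fun _ => le_rfl⟩)
      (NE_QQ hq (Y := fun k => tow hY (q k)) ⟨hY, fun _ => le_rfl⟩)
    choose kp hkp using fun p => hhp p (κ'' + 1)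
    refine ⟨univ.sup kp, fun k hk => ?_⟩
    have hkle : ∀ p, kp p ≤ k := fun p => (le_sup (f := kp) (mem_univ p)).trans hk
    choose A haR hae using fun p => hkp p k (hkle p)
    set N : ℕ := tow h (q k) with hN
    have hAR : ∀ i, RB N N (A i) := fun i =>
      (haR i).mono (tow_mono_left (hple i) _) (tow_mono_left (hple i) _)
    obtain ⟨L, hL1, hL2, hL3, B, D, hB, hD1, hD2, hint, hconj⟩ := common_field N N A hAR
    have hcard : Fintype.card (Fin 2 × Fin 3) = 6 := by simp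
    rw [hcard] at hL3 hD2
    set Y : ℕ := tow hY (q k) with hYd
    have hYb : (6 * N + 1) ^ (6 * N + 1) + N ^ 6 + (N + 1) + X₀ ≤ Y := hhY k
    have hY2 : 2 ≤ Y := by omega
    have hYp : Y < 2 ^ Y := Nat.lt_two_pow_self
    have hYp' : (Y : ℝ) ≤ 2 ^ Y := by exact_mod_cast hYp.le
    have hcj : ∀ i, ∀ σ : L ≃ₐ[ℚ] L, ‖((σ (B i) : L) : ℂ)‖ ≤ 2 ^ Y := by
      intro i σ
      refine (hconj i σ).trans (le_trans ?_ hYp')
      have : N + 1 ≤ Y := by omega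
      exact_mod_cast this
    have hDI : ∀ i, DI D 1 (B i) := by
      intro i
      unfold DI
      rw [pow_one]
      exact hint i
    have hX₀Y : X₀ ≤ Y := by omega
    have hX₀R : (X₀ : ℝ) ≤ Y := by exact_mod_cast hX₀Y
    have c1 := Nat.le_ceil ‖s‖
    have c2 := Nat.le_ceil (∑ m, ‖y m‖)
    have hX₀e : (X₀ : ℝ) = ⌈‖s‖⌉₊ + ⌈∑ m, ‖y m‖⌉₊ + 2 := by rw [hX₀]; push_cast; ring
    have p1 : (0 : ℝ) ≤ ⌈‖s‖⌉₊ := by positivity
    have p2 : (0 : ℝ) ≤ ⌈∑ m, ‖y m‖⌉₊ := by positivity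
    have hsY : ‖s‖ ≤ Y := by linarith
    have hyY : ∑ m, ‖y m‖ ≤ Y := by linarith
    have hΛ : PP Y (tow κ (q k)) + QQ Y ≤ tow κ'' (q k) := hκ'' k
    have htow : ((tow (κ'' + 1) (q k) : ℕ) : ℝ)⁻¹ = ((2 : ℝ) ^ tow κ'' (q k))⁻¹ := by
      rw [tow_succ]; push_cast; rfl
    rw [htow] at hae
    have hres := six_quant Y (tow κ (q k)) (tow κ'' (q k)) hY2 (by
      have := le_tow κ (q k)
      have := hq k
      omega) hΛ s y hsY hyY L (hL3.trans (by omega)) B D hD1 (hD2.trans (by omega)) hDI hcj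
      (fun p => by rw [hB]; exact hae p)
    have hκle : ((tow κ (q k) : ℕ) : ℝ)⁻¹ ≤ ((tow κ' (q k) : ℕ) : ℝ)⁻¹ := by
      have t1 : tow κ' (q k) ≤ tow κ (q k) := tow_mono_left (le_max_left _ _) _
      have t2 : 0 < tow κ' (q k) := by
        have := le_tow κ' (q k)
        have := hq k
        omega
      exact inv_anti₀ (by exact_mod_cast t2) (by exact_mod_cast t1)
    rcases hres with ⟨u, v, hv1, hv2, huv⟩ | ⟨c, hc0, hcB, hcs⟩
    · exact ⟨u, v, hv1, hv2.trans (hhD k), huv.trans hκle⟩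
    · exfalso
      have t3 := hκ₁ k c hc0 (fun m => (hcB m).trans (by exact_mod_cast hhD k))
      have t1 : tow κ₁ (q k) ≤ tow κ (q k) := tow_mono_left (le_max_right _ _) _
      have t2 : 0 < tow κ₁ (q k) := by
        have := le_tow κ₁ (q k)
        have := hq k
        omega
      have t4 : ((tow κ (q k) : ℕ) : ℝ)⁻¹ ≤ ((tow κ₁ (q k) : ℕ) : ℝ)⁻¹ :=
        inv_anti₀ (by exact_mod_cast t2) (by exact_mod_cast t1)
      linarith
  have him : s.im = 0 := by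
    by_contra hne
    have h0 : 0 < |s.im| := abs_pos.2 hne
    obtain ⟨κ, hκ⟩ := exists_nat_gt (|s.im|⁻¹)
    obtain ⟨k₀, hk₀⟩ := main κ
    obtain ⟨u, v, hv1, _, huv⟩ := hk₀ k₀ le_rfl
    have h3 : |s.im| ≤ ((tow κ (q k₀) : ℕ) : ℝ)⁻¹ := by
      refine le_trans ?_ huv
      have h4 := Complex.abs_im_le_norm (s - u / v)
      have h5 : (s - (u : ℂ) / (v : ℂ)).im = s.im := by
        have : ((u : ℂ) / (v : ℂ)) = (((u : ℝ) / (v : ℝ) : ℝ) : ℂ) := by push_cast; rfl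
        rw [this, sub_im, ofReal_im, sub_zero]
      rwa [h5] at h4
    have h4 : (κ : ℝ) ≤ tow κ (q k₀) := by
      have := le_tow κ (q k₀)
      exact_mod_cast (by omega : κ ≤ tow κ (q k₀))
    have h5 : (0 : ℝ) < tow κ (q k₀) := by
      have : 0 < |s.im|⁻¹ := by positivity
      linarith
    rw [le_inv_comm₀ h0 h5] at h3
    linarith
  refine ⟨s.re, ⟨hD, fun κ => ?_⟩, ?_⟩
  · obtain ⟨k₀, hk₀⟩ := main κ
    refine ⟨k₀, fun k hk => ?_⟩
    obtain ⟨u, v, hv1, hv2, huv⟩ := hk₀ k hk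
    refine ⟨u, v, hv1, hv2, le_trans ?_ huv⟩
    have h4 := Complex.abs_re_le_norm (s - u / v)
    have h5 : (s - (u : ℂ) / (v : ℂ)).re = s.re - u / v := by
      have : ((u : ℂ) / (v : ℂ)) = (((u : ℝ) / (v : ℝ) : ℝ) : ℂ) := by push_cast; rfl
      rw [this, sub_re, ofReal_re]
    rwa [h5] at h4
  · exact Complex.ext (by simp) (by simp [him])

end Pool.Agent.R347.SX
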